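import Mathlib
import Pool.Agent.H964.QC.Stm2

/-! # Project QC: one step of the backward induction -/

set_option autoImplicit false

open MeasureTheory ProbabilityTheory Filter Finset

namespace Pool.Agent.H962.QC

open Pool.Agent.H964.QC

namespace STEP

/-- numerical bounds; `q = L ^ (1/4)` -/
lemma num {Cb Cl L L' q d e f : ℝ} (hCb : 1 ≤ Cb) (hCl : 1 ≤ Cl) (hq : 4 * Cb ≤ q)
    (hL : L = q ^ 4) (h1 : L - L' ≤ q ^ 2 + 1) (h2 : 0 < L') (h3 : L' ≤ L)
    (hd : d = Real.log (L / L')) (he : e = Cb * (1 + Real.log L) / L) (hf : f = Cb / L) :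
    0 ≤ d ∧ d ≤ 1 ∧ 0 ≤ e ∧ e ≤ 1 ∧ 0 ≤ f ∧ f ≤ 1 ∧
      2 * (Cb / L) + Cl * (e + f + Real.sqrt ((d + e) * f) + d ^ 2) ≤
        (2 * Cb + 24 * Cl * Cb) * (1 / q ^ 3) := by
  have hq4 : 4 ≤ q := by linarith
  have hq0 : 0 < q := by linarith
  have hL0 : 0 < L := by rw [hL]; positivity
  have hd0 : 0 ≤ d := by
    rw [hd]
    exact Real.log_nonneg ((one_le_div h2).2 h3)
  have hL' : q ^ 4 / 2 ≤ L' := by nlinarith [sq_nonneg (q - 4), sq_nonneg (q ^ 2 - 4)]
  have hd1 : d ≤ 4 / q ^ 2 := by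
    have h4 : d ≤ L / L' - 1 := by
      rw [hd]
      exact Real.log_le_sub_one_of_pos (by positivity)
    have h5 : L / L' - 1 = (L - L') / L' := by field_simp
    have h6 : (L - L') / L' ≤ (2 * q ^ 2) / (q ^ 4 / 2) := by
      refine div_le_div₀ (by positivity) ?_ (by positivity) hL'
      nlinarith
    have h7 : (2 * q ^ 2) / (q ^ 4 / 2) = 4 / q ^ 2 := by
      field_simp
      norm_num
    linarith
  have hlog : 1 + Real.log L ≤ 4 * q := by
    have h4 : Real.log L = 4 * Real.log q := by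
      rw [hL, Real.log_pow]
      norm_num
    have h5 : Real.log q ≤ q - 1 := Real.log_le_sub_one_of_pos hq0
    linarith
  have hL1 : 1 ≤ L := by
    rw [hL]
    exact one_le_pow₀ (by linarith)
  have he0 : 0 ≤ e := by
    rw [he]
    have := Real.log_nonneg hL1
    positivity
  have he1 : e ≤ 4 * Cb / q ^ 3 := by
    rw [he, hL, div_le_div_iff₀ (by positivity) (by positivity)]
    calc Cb * (1 + Real.log (q ^ 4)) * q ^ 3 ≤ Cb * (4 * q) * q ^ 3 := by
          rw [← hL]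
          gcongr
      _ = 4 * Cb * q ^ 4 := by ring
  have hf0 : 0 ≤ f := by rw [hf]; positivity
  have hf1 : f = Cb / q ^ 4 := by rw [hf, hL]
  have hf2 : f ≤ Cb / q ^ 3 := by
    rw [hf1]
    exact div_le_div_of_nonneg_left (by positivity) (by positivity)
      (pow_le_pow_right₀ (by linarith) (by norm_num))
  have hq3 : 4 * Cb ≤ q ^ 3 := by
    refine hq.trans ?_
    calc q = q ^ 1 := (pow_one q).symm
      _ ≤ q ^ 3 := pow_le_pow_right₀ (by linarith) (by norm_num)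
  have hq3' : 4 * Cb / q ^ 3 ≤ 1 := (div_le_one (by positivity)).2 hq3
  have hd2 : d ^ 2 ≤ 16 / q ^ 3 := by
    calc d ^ 2 ≤ (4 / q ^ 2) ^ 2 := pow_le_pow_left₀ hd0 hd1 2
      _ = 16 / q ^ 4 := by rw [div_pow, ← pow_mul]; norm_num
      _ ≤ 16 / q ^ 3 := div_le_div_of_nonneg_left (by norm_num) (by positivity)
          (pow_le_pow_right₀ (by linarith) (by norm_num))
  have hs : Real.sqrt ((d + e) * f) ≤ 3 * Cb / q ^ 3 := by
    rw [Real.sqrt_le_left (by positivity)]
    have h4 : d + e ≤ 8 * Cb / q ^ 2 := by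
      have h5 : 4 * Cb / q ^ 3 ≤ 4 * Cb / q ^ 2 :=
        div_le_div_of_nonneg_left (by positivity) (by positivity)
          (pow_le_pow_right₀ (by linarith) (by norm_num))
      have h6 : 4 / q ^ 2 ≤ 4 * Cb / q ^ 2 := by
        gcongr
        linarith
      calc d + e ≤ 4 * Cb / q ^ 2 + 4 * Cb / q ^ 2 := by linarith
        _ = 8 * Cb / q ^ 2 := by ring
    calc (d + e) * f ≤ (8 * Cb / q ^ 2) * (Cb / q ^ 4) := by
          rw [hf1]
          exact mul_le_mul_of_nonneg_right h4 (by positivity)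
      _ = 8 * Cb ^ 2 / q ^ 6 := by
          rw [div_mul_div_comm, ← pow_add]
          ring
      _ ≤ 9 * Cb ^ 2 / q ^ 6 := by
          gcongr
          norm_num
      _ = (3 * Cb / q ^ 3) ^ 2 := by
          rw [div_pow, ← pow_mul]
          ring
  refine ⟨hd0, ?_, he0, he1.trans hq3', hf0, ?_, ?_⟩
  · refine hd1.trans ?_
    rw [div_le_one (by positivity)]
    nlinarith
  · refine hf2.trans (le_trans ?_ hq3')
    gcongr
    linarith
  · have h4 : Cb / L ≤ Cb / q ^ 3 := by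
      rw [← hf]
      exact hf2
    have h5 : 16 / q ^ 3 ≤ 16 * Cb / q ^ 3 := by
      gcongr
      linarith
    have h6 : e + f + Real.sqrt ((d + e) * f) + d ^ 2 ≤ 24 * Cb / q ^ 3 := by
      calc e + f + Real.sqrt ((d + e) * f) + d ^ 2 ≤
            4 * Cb / q ^ 3 + Cb / q ^ 3 + 3 * Cb / q ^ 3 + 16 * Cb / q ^ 3 := by linarith
        _ = 24 * Cb / q ^ 3 := by ring
    calc 2 * (Cb / L) + Cl * (e + f + Real.sqrt ((d + e) * f) + d ^ 2) ≤
          2 * (Cb / q ^ 3) + Cl * (24 * Cb / q ^ 3) := by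
          gcongr
      _ = (2 * Cb + 24 * Cl * Cb) * (1 / q ^ 3) := by ring

/-- independence as an iterated integral -/
lemma frz : S_FRZ := by
  intro Ω E1 E2 F _ _ _ _ _ _ _ _ _ P _ X Y f hX hY hf hXY hint
  have hmap := (indepFun_iff_map_prod_eq_prod_map_map hX.aemeasurable hY.aemeasurable).1 hXY
  have hXYm : Measurable fun ω => (X ω, Y ω) := hX.prodMk hY
  have hfs : StronglyMeasurable f := hf.stronglyMeasurable
  have : IsProbabilityMeasure (P.map X) := Measure.isProbabilityMeasure_map hX.aemeasurable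
  have : IsProbabilityMeasure (P.map Y) := Measure.isProbabilityMeasure_map hY.aemeasurable
  have hI : Integrable f ((P.map X).prod (P.map Y)) := by
    rw [← hmap]
    exact (integrable_map_measure hfs.aestronglyMeasurable hXYm.aemeasurable).2 hint
  have h1 : ∀ x : E1, ∫ y, f (x, y) ∂(P.map Y) = ∫ ω', f (x, Y ω') ∂P := fun x =>
    integral_map hY.aemeasurable (hfs.comp_measurable measurable_prodMk_left).aestronglyMeasurable
  have hs2 : StronglyMeasurable fun x : E1 => ∫ y, f (x, y) ∂(P.map Y) :=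
    hfs.integral_prod_right'
  refine ⟨?_, ?_, ?_⟩
  · calc ∫ ω, f (X ω, Y ω) ∂P = ∫ z, f z ∂(P.map fun ω => (X ω, Y ω)) :=
          (integral_map hXYm.aemeasurable hfs.aestronglyMeasurable).symm
      _ = ∫ z, f z ∂((P.map X).prod (P.map Y)) := by rw [hmap]
      _ = ∫ x, ∫ y, f (x, y) ∂(P.map Y) ∂(P.map X) := integral_prod f hI
      _ = ∫ ω, ∫ y, f (X ω, y) ∂(P.map Y) ∂P :=
          integral_map hX.aemeasurable hs2.aestronglyMeasurable
      _ = _ := by simp only [h1]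
  · have h2 := hI.integral_prod_left
    have h3 := (integrable_map_measure hs2.aestronglyMeasurable hX.aemeasurable).1 h2
    refine h3.congr (Filter.Eventually.of_forall fun ω => ?_)
    exact h1 (X ω)
  · have h2 := hI.prod_right_ae
    have h3 := ae_of_ae_map hX.aemeasurable h2
    filter_upwards [h3] with ω hω
    exact (integrable_map_measure (hfs.comp_measurable measurable_prodMk_left).aestronglyMeasurable
      hY.aemeasurable).1 hω

end STEP

open STEP in
theorem t_STEP : S_STEP := by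
  intro hMEAS hIND hDUAL hCHN hGM hLV hRR hM2 hBLK C0 κ hC0 hκ
  obtain ⟨Cb, Lb, hCb, hLb, hblk⟩ := hBLK C0 κ hC0 hκ
  obtain ⟨Cl, hCl, hlv⟩ := hLV
  have hCb0 : 0 < Cb := by linarith
  have hCl0 : 0 < Cl := by linarith
  refine ⟨2 * Cb + 24 * Cl * Cb, max Lb ((4 * Cb) ^ 4), by nlinarith, le_max_of_le_left hLb, ?_⟩
  intro V _ _ N0 W Ω _ P _ s2 η w t T j L L' Ls u e hs2 hη hL hL' hLs1 hLs2 hb1 hb2 ht hN hw he h
  have hLbs : Lb ≤ Ls := (le_max_left _ _).trans hLs1
  have hCbs : (4 * Cb) ^ 4 ≤ Ls := (le_max_right _ _).trans hLs1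
  have hLs0 : 0 < Ls := by linarith
  have hL'0 : 0 < L' := by linarith
  have hLL' : RR (t + T) - RR t = L - L' := by rw [hL, hL']; ring
  rw [hLL'] at hb1 hb2
  have hL'L : L' ≤ L := by
    have := Real.sqrt_nonneg L
    linarith
  have hL0 : 0 < L := by linarith
  set q : ℝ := L ^ (1 / 4 : ℝ) with hq
  have hq0 : 0 < q := Real.rpow_pos_of_pos hL0 _
  have hq4 : L = q ^ 4 := by
    rw [hq, ← Real.rpow_natCast, ← Real.rpow_mul hL0.le]
    norm_num
  have hqs : Real.sqrt L = q ^ 2 := by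
    rw [hq4, show q ^ 4 = (q ^ 2) ^ 2 by ring, Real.sqrt_sq (by positivity)]
  have hq3 : L ^ (-(3 / 4) : ℝ) = 1 / q ^ 3 := by
    rw [Real.rpow_neg hL0.le, hq, ← Real.rpow_natCast, ← Real.rpow_mul hL0.le, one_div]
    norm_num
  have hqC : 4 * Cb ≤ q := by
    have h1 : (4 * Cb) ^ 4 ≤ q ^ 4 := by
      rw [← hq4]
      linarith
    exact le_of_pow_le_pow_left₀ (by norm_num) hq0.le h1
  obtain ⟨n1, n2, n3, n4, n5, n6, n7⟩ := num hCb hCl hqC hq4 (by rw [← hqs]; exact hb2) hL'0 hL'L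
    rfl rfl rfl
  obtain ⟨-, -, hη'⟩ := hIND V Ω P s2 κ η hη j
  have hblk' := hblk V N0 W Ω P s2 (fun n v => η (j + n) v) w t T L L' hs2 hη' hL hL'
    (hLbs.trans hLs2) (by rw [hLL']; exact hb1) (by rw [hLL']; exact hb2) ht hN hw
  obtain ⟨b1, b2, b3⟩ := hblk'
  have hME := hMEAS V C0 N0 W Ω P s2 κ (fun n v => η (j + n) v) hη'
  obtain ⟨-, hpos, -, hmeas, -, -, hcfg, hmem, -, -, -⟩ := hME
  set X : Ω → ℝ := fun ω => XX W w T (cfg (fun n v => η (j + n) v) ω) T with hX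
  have hXm : Measurable X := by
    have h1 : Measurable fun x : ℕ → V → ℝ => XX W w T x T := by
      unfold XX
      exact Finset.measurable_sum _ fun z _ => ((hmeas T z).sub_const 1).const_mul _
    exact h1.comp hcfg
  have hXe : ∀ ω, 1 + X ω = ∑ z, w z * Zr W (cfg (fun n v => η (j + n) v) ω) T z := by
    intro ω
    obtain ⟨-, -, h3, -⟩ := hDUAL V C0 N0 W (cfg (fun n v => η (j + n) v) ω) w j T
    rw [hw.sum] at h3
    show 1 + XX W w T (cfg (fun n v => η (j + n) v) ω) T = _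
    rw [h3]
    ring
  have hX1 : ∀ ω, -1 < X ω := by
    intro ω
    have h1 : 0 < ∑ z, w z * Zr W (cfg (fun n v => η (j + n) v) ω) T z := by
      have hz : ∀ z, 0 < Zr W (cfg (fun n v => η (j + n) v) ω) T z := fun z =>
        hpos _ T z fun n v => hη.gt (j + n) v ω
      obtain ⟨z0, hz0⟩ : ∃ z, w z ≠ 0 := by
        by_contra hcon
        push Not at hcon
        have := hw.sum
        simp only [hcon, sum_const_zero] at this
        exact zero_ne_one this
      refine Finset.sum_pos' (fun z _ => mul_nonneg (hw.nonneg z) (hz z).le)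
        ⟨z0, mem_univ _, mul_pos (lt_of_le_of_ne (hw.nonneg z0) hz0.symm) (hz z0)⟩
    have h2 := hXe ω
    linarith
  have hX4 : Integrable (fun ω => X ω ^ 4) P := by
    have h1 : MemLp X 4 P := by
      show MemLp (fun ω => ∑ z, wt W w (T - T) z *
        (Zr W (cfg (fun n v => η (j + n) v) ω) T z - 1)) 4 P
      refine memLp_finsetSum _ fun z _ => ?_
      exact ((hmem T z).sub (memLp_const 1)).const_mul _
    have h2 := h1.integrable_norm_pow (p := 4) (by norm_num)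
    refine h2.congr (Filter.Eventually.of_forall fun ω => ?_)
    show ‖X ω‖ ^ 4 = X ω ^ 4
    rw [Real.norm_eq_abs, show (4 : ℕ) = 2 * 2 by norm_num, pow_mul, pow_mul, sq_abs]
  have hX0 : ∫ ω, X ω ∂P = 0 :=
    (hM2 V C0 N0 W Ω P s2 κ (fun n v => η (j + n) v) hs2.le hη' w hw.nonneg T (by omega)).1
  have hlv' := hlv Ω P X _ _ _ hXm hX1 hX4 hX0 n1 n2 n3 n4 n5 n6 b1 b2 u
  set ρ : ℂ := Complex.exp ((-(u ^ 2 / 2 * Real.log (L' / Ls)) : ℝ)) with hρ
  have hρ1 : ‖ρ‖ ≤ 1 := by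
    rw [hρ, Complex.norm_exp, Complex.ofReal_re, Real.exp_le_one_iff]
    have := Real.log_nonneg ((one_le_div hLs0).2 hLs2)
    have h2 : 0 ≤ u ^ 2 / 2 * Real.log (L' / Ls) := by positivity
    linarith
  have hchn := hCHN hMEAS hIND frz hDUAL V C0 N0 W Ω P s2 κ η w j T u (1 / 2 * Real.log (L / L')) (1 / 2 * Real.log (L' / Ls))
    e (Cb / L) ρ {w | Good W (t + T) L' w} hη hw.nonneg hw.sum (hGM V C0 N0 W (t + T) L') hρ1 he
    (fun w' hw' => h w' hw') b3
  have hlogs : Real.log (L / Ls) = Real.log (L / L') + Real.log (L' / Ls) := by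
    rw [← Real.log_mul (by positivity) (by positivity)]
    congr 1
    field_simp
  have hc : 1 / 2 * Real.log (L / Ls) = 1 / 2 * Real.log (L / L') + 1 / 2 * Real.log (L' / Ls) := by
    rw [hlogs]
    ring
  have hexp : Complex.exp ((-(u ^ 2 / 2 * Real.log (L / Ls)) : ℝ)) =
      Complex.exp ((-(u ^ 2 / 2 * Real.log (L / L')) : ℝ)) * ρ := by
    rw [hρ, ← Complex.exp_add, hlogs]
    congr 1
    push_cast
    ring
  rw [hc, hexp, hq3]
  set I1 : ℂ := ∫ ω, Complex.exp (Complex.I * (u * (Real.log (1 + X ω) +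
    1 / 2 * Real.log (L / L')) : ℝ)) ∂P with hI1
  have hu : (0 : ℝ) ≤ 1 + u ^ 4 := by positivity
  have hu1 : (1 : ℝ) ≤ 1 + u ^ 4 := by nlinarith [sq_nonneg (u ^ 2)]
  have hA : ‖chi W P η u (1 / 2 * Real.log (L / L') + 1 / 2 * Real.log (L' / Ls)) (j + T) w -
      I1 * ρ‖ ≤ e + 2 * (Cb / L) := hchn
  have hB : ‖I1 * ρ - Complex.exp ((-(u ^ 2 / 2 * Real.log (L / L')) : ℝ)) * ρ‖ ≤
      Cl * (1 + u ^ 4) * (Cb * (1 + Real.log L) / L + Cb / L + Real.sqrt ((Real.log (L / L') +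
        Cb * (1 + Real.log L) / L) * (Cb / L)) + Real.log (L / L') ^ 2) := by
    rw [← sub_mul, norm_mul]
    exact (mul_le_of_le_one_right (norm_nonneg _) hρ1).trans hlv'
  have hCC : 0 ≤ Cb / L := by positivity
  calc _ ≤ (e + 2 * (Cb / L)) + Cl * (1 + u ^ 4) * (Cb * (1 + Real.log L) / L + Cb / L +
        Real.sqrt ((Real.log (L / L') + Cb * (1 + Real.log L) / L) * (Cb / L)) +
          Real.log (L / L') ^ 2) := (norm_sub_le_norm_sub_add_norm_sub _ _ _).trans
        (add_le_add hA hB)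
    _ ≤ e + (1 + u ^ 4) * (2 * (Cb / L) + Cl * (Cb * (1 + Real.log L) / L + Cb / L +
        Real.sqrt ((Real.log (L / L') + Cb * (1 + Real.log L) / L) * (Cb / L)) +
          Real.log (L / L') ^ 2)) := by
        nlinarith
    _ ≤ e + (1 + u ^ 4) * ((2 * Cb + 24 * Cl * Cb) * (1 / q ^ 3)) := by gcongr
    _ = e + (2 * Cb + 24 * Cl * Cb) * (1 + u ^ 4) * (1 / q ^ 3) := by ring

end Pool.Agent.H962.QC
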